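import Pool.Agent.Results.MP_ef6a16_nt.FewPointsAllFields
import Pool.Agent.W7.FH.Qm
import Pool.Agent.Seat74.FQ.Quad

/-!
# Fermat's equation over almost all quadratic fields, with a power saving

Heights of elements and points of a quadratic field `K` are relative to `K`. A solution of
`x ^ n + y ^ n = z ^ n` in `K` is called rational if `x / z` and `y / z` are rational numbers; by Wiles' theorem there is
no rational solution with `x y z ≠ 0`. Quadratic fields correspond to the squarefree integers `D ≠ 1`, `K = ℚ(√D)`.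

(1) For all `A` and `ε > 0` there is `R` such that for EVERY `X ≥ 1` all solutions of `x ^ n + y ^ n = z ^ n`, for ALL
exponents `n ≥ R` prime to six and in nonzero elements of ALL quadratic fields together, which are neither rational nor
trivial in the sense of the question and have height `H(x : y : z) ≤ X ^ A`, give at most `X ^ ε` points `(x : y : z)`, and
they are in at most `X ^ ε` quadratic fields. So for all quadratic fields `K` with at most `X ^ ε` exceptions (the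
discriminant of `K` is not bounded), for all exponents `n ≥ R` prime to six every solution of height at most `X ^ A` is
rational or trivial.

(2) So there is one set `E` of squarefree integers with at most `X ^ ε` members in `[-X, X]` for every `X ≥ 1` such
that for all quadratic fields `K = ℚ(√D)` with `D` not in `E` and all exponents `n ≥ R` prime to six every nontrivial
solution which is not rational is of height larger than `|D| ^ A`.

(3) Solutions of exponential height. For all `P` and `ε > 0` there are `R` and `δ > 0` such that for every `X ≥ 1`, for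
all quadratic fields `K` with at most `X ^ ε` exceptions and all odd `n` with `R ≤ n ≤ X ^ δ`, there is no solution of
`x ^ n + y ^ n = z ^ n` in `K` which is not rational and such that `x` and `y` are products of powers of any `P` nonzero
elements of `K` of height at most `X`, with exponents of absolute value at most `X ^ δ`, and `z ≠ 0` is arbitrary. The
heights of these solutions are as large as `exp (X ^ δ)`.

Proof. The starting file `FewPointsAllFields` bounds the number of the points of all Fermat curves of degree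
`R ≤ n ≤ Y ^ δ` over all number fields of bounded degree. A point which is not rational determines its quadratic field.
If `n` is larger than a power of `X`, the lower bound `2 ^ (n - 2)` for the heights of all nontrivial solutions over
quadratic fields (starting file `ExponentialHeight`) is larger than `X ^ A`.
-/

set_option autoImplicit false

namespace Pool.Agent.Results.MP_50a406_nt.AlmostAllQuadraticFields

open Pool.Agent.Results.MP_ef6a16_nt.FewPointsAllFields Pool.Agent.Seat74.FQ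

/-- `D ≠ 1` is squarefree and in the quadratic field `K = ℚ(√D)` there are `x, y, z ≠ 0` and an exponent `n ≥ R` prime to
six with `x ^ n + y ^ n = z ^ n` and height `H(x : y : z) ≤ X ^ A` (relative to `K`) such that `x / z`, `y / z` are not
both rational and the solution is not trivial, that is, not `(a, a ζ ^ 2, a ζ)` with a primitive sixth root of unity
`ζ`; and `W` is the image `(x : y : - z)` of the solution under an embedding of `K` in `ℂ` (a point of the projective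
plane over `ℂ`, given as a line of `ℂ ^ 3`) -/
def Small (A R X : ℕ) (D : ℤ) (W : Submodule ℂ (Fin 3 → ℂ)) : Prop :=
  Squarefree D ∧ D ≠ 1 ∧ ∃ (K : Type) (_ : Field K) (_ : NumberField K), Module.finrank ℚ K = 2 ∧
    (∃ s : K, s ^ 2 = D) ∧ ∃ (σ : K →+* ℂ) (n : ℕ) (x y z : K), R ≤ n ∧ Nat.Coprime n 6 ∧
      x ≠ 0 ∧ y ≠ 0 ∧ z ≠ 0 ∧ x ^ n + y ^ n = z ^ n ∧
      Height.mulHeight ![x, y, z] ≤ (X : ℝ) ^ A ∧
      ¬ (∃ r t : ℚ, x = r * z ∧ y = t * z) ∧
      ¬ (∃ ζ : K, IsPrimitiveRoot ζ 6 ∧ y = x * ζ ^ 2 ∧ z = x * ζ) ∧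
      W = Submodule.span ℂ {![σ x, σ y, -σ z]}

/-- `D ≠ 1` is squarefree and in the quadratic field `K = ℚ(√D)` there is a solution of `x ^ n + y ^ n = z ^ n` for some
odd `n`, `R ≤ n ≤ X ^ δ`, such that `x = ∏ (w j) ^ (f j)`, `y = ∏ (w j) ^ (g j)` are products of powers of `P` nonzero
elements of height at most `X`, with exponents of absolute value at most `X ^ δ`, `z ≠ 0` is arbitrary, and `x / z`,
`y / z` are not both rational -/
def Structured (P R : ℕ) (δ : ℝ) (X : ℕ) (D : ℤ) : Prop :=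
  Squarefree D ∧ D ≠ 1 ∧ ∃ (K : Type) (_ : Field K) (_ : NumberField K), Module.finrank ℚ K = 2 ∧
    (∃ s : K, s ^ 2 = D) ∧ ∃ (n : ℕ) (w : Fin P → K) (f g : Fin P → ℤ) (z : K), R ≤ n ∧
      (n : ℝ) ≤ (X : ℝ) ^ δ ∧ Odd n ∧
      (∀ j, w j ≠ 0 ∧ Height.mulHeight₁ (w j) ≤ X) ∧
      (∀ j, |(f j : ℝ)| ≤ (X : ℝ) ^ δ) ∧ (∀ j, |(g j : ℝ)| ≤ (X : ℝ) ^ δ) ∧ z ≠ 0 ∧
      (∏ j, w j ^ f j) ^ n + (∏ j, w j ^ g j) ^ n = z ^ n ∧
      ¬ (∃ r t : ℚ, ∏ j, w j ^ f j = r * z ∧ ∏ j, w j ^ g j = t * z)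

theorem embed (K : Type) [Field K] [NumberField K] : Nonempty (K →+* ℂ) := inferInstance

/-- the number of the integers is at most the number of the points -/
theorem count {S : Set ℤ} {F : Set (Submodule ℂ (Fin 3 → ℂ))} {B : ℝ} (hF : F.Finite)
    (hB : (F.ncard : ℝ) ≤ B) (h : ∀ D ∈ S, ∃ W ∈ F, Quad D W) :
    S.Finite ∧ (S.ncard : ℝ) ≤ B := by
  choose! w hw1 hw2 using h
  have hinj : Set.InjOn w S := by
    intro D hD D' hD' hh
    exact (hw2 D hD).inj (hh ▸ hw2 D' hD')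
  have hmaps : Set.MapsTo w S F := fun D hD => hw1 D hD
  refine ⟨Set.Finite.of_injOn hmaps hinj hF, le_trans ?_ hB⟩
  exact_mod_cast Set.ncard_le_ncard_of_injOn w hw1 hinj hF

theorem exp_beats (k : ℕ) : ∃ R : ℕ, ∀ n : ℕ, R ≤ n → ((n : ℝ) ^ k < 2 ^ (n - 2)) := by
  have h := tendsto_pow_const_div_const_pow_of_one_lt k (show (1 : ℝ) < 2 by norm_num)
  have h1 := (h.eventually (gt_mem_nhds (show (0 : ℝ) < 1 / 4 by norm_num)))
  obtain ⟨R, hR⟩ := Filter.eventually_atTop.1 h1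
  refine ⟨max R 2, fun n hn => ?_⟩
  have h2 := hR n ((le_max_left _ _).trans hn)
  have h3 : 2 ≤ n := (le_max_right _ _).trans hn
  have h4 : (0 : ℝ) < 2 ^ n := by positivity
  rw [div_lt_iff₀ h4] at h2
  have h5 : (2 : ℝ) ^ n = 2 ^ (n - 2) * 4 := by
    rw [show (4 : ℝ) = 2 ^ 2 by norm_num, ← pow_add, Nat.sub_add_cancel h3]
  rw [h5] at h2
  linarith

theorem part3 (P : ℕ) (ε : ℝ) (hε : 0 < ε) : ∃ (R : ℕ) (δ : ℝ), 0 < δ ∧ ∀ X : ℕ, 1 ≤ X →
    {D : ℤ | Structured P R δ X D}.Finite ∧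
    (({D : ℤ | Structured P R δ X D}.ncard : ℕ) : ℝ) ≤ (X : ℝ) ^ ε := by
  obtain ⟨R, δ, hδ, H⟩ := part2 P 2 ε hε
  refine ⟨R, δ, hδ, fun X hX => ?_⟩
  obtain ⟨hfin, hcard⟩ := H X hX
  refine count hfin hcard ?_
  rintro D ⟨hD, hD1, K, _, _, hK, hs, n, w, f, g, z, hn, hnX, hodd, hw, hf, hg, hz, heq, hr⟩
  obtain ⟨σ⟩ := embed K
  have hX1 : (1 : ℝ) ≤ X := by exact_mod_cast hX
  refine ⟨_, ⟨σ (∏ j, w j ^ f j), σ (∏ j, w j ^ g j), -σ z, ⟨K, inferInstance, inferInstance, σ, w,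
    f, g, -z, n, hK.le, hn, hnX, hf, hg, fun j => ⟨(hw j).1, (hw j).2.trans ?_⟩,
    neg_ne_zero.2 hz, rfl, rfl, (map_neg σ z).symm, ?_⟩, rfl⟩, hD, hD1, K, inferInstance,
    inferInstance, hK, hs, σ, _, _, z, hz, hr, rfl⟩
  · rw [hK]
    nlinarith
  · rw [hodd.neg_pow, heq]
    ring

theorem part1' (A : ℕ) (ε : ℝ) (hε : 0 < ε) : ∃ R : ℕ, ∀ X : ℕ, 1 ≤ X →
    {W | ∃ D, Small A R X D W}.Finite ∧
    (({W | ∃ D, Small A R X D W}.ncard : ℕ) : ℝ) ≤ (X : ℝ) ^ ε ∧
    {D : ℤ | ∃ W, Small A R X D W}.Finite ∧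
    (({D : ℤ | ∃ W, Small A R X D W}.ncard : ℕ) : ℝ) ≤ (X : ℝ) ^ ε := by
  obtain ⟨R0, δ, hδ, H⟩ := part2 2 2 (ε / (A + 1)) (by positivity)
  obtain ⟨R1, hR1⟩ := exp_beats ⌈1 / δ⌉₊
  refine ⟨max (max R0 R1) 5, fun X hX => ?_⟩
  have hX1 : (1 : ℝ) ≤ X := by exact_mod_cast hX
  obtain ⟨hfin, hcard⟩ := H (X ^ (A + 1)) (Nat.one_le_pow _ _ hX)
  have hY : (((X ^ (A + 1) : ℕ) : ℝ)) = (X : ℝ) ^ (A + 1) := by push_cast; rfl
  have hYε : (((X ^ (A + 1) : ℕ) : ℝ)) ^ (ε / (A + 1)) = (X : ℝ) ^ ε := by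
    rw [hY, ← Real.rpow_natCast, ← Real.rpow_mul (by positivity)]
    congr 1
    push_cast
    field_simp
  rw [hYε] at hcard
  obtain ⟨F, hF⟩ : ∃ F, F = {W : Submodule ℂ (Fin 3 → ℂ) | ∃ a b c,
      Fermat 2 2 R0 δ (X ^ (A + 1)) a b c ∧ W = Submodule.span ℂ {![a, b, c]}} := ⟨_, rfl⟩
  rw [← hF] at hfin hcard
  suffices hmain : ∀ D W, Small A (max (max R0 R1) 5) X D W → W ∈ F ∧ Quad D W by
    have hsub : {W | ∃ D, Small A (max (max R0 R1) 5) X D W} ⊆ F := by
      rintro W ⟨D, hW⟩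
      exact (hmain D W hW).1
    have hD := count (S := {D : ℤ | ∃ W, Small A (max (max R0 R1) 5) X D W}) hfin hcard (by
      rintro D ⟨W, hW⟩
      exact ⟨W, hmain D W hW⟩)
    refine ⟨hfin.subset hsub, le_trans ?_ hcard, hD.1, hD.2⟩
    exact_mod_cast Set.ncard_le_ncard hsub hfin
  rintro D W ⟨hD, hD1, K, _, _, hK, hs, σ, n, x, y, z, hn, hn6, hx, hy, hz, heq, hH, hr, htriv,
    hW⟩
  have hn0 : R0 ≤ n := ((le_max_left _ _).trans (le_max_left _ _)).trans hn
  have hn1 : R1 ≤ n := ((le_max_right _ _).trans (le_max_left _ _)).trans hn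
  have hn5 : 5 ≤ n := (le_max_right _ _).trans hn
  have hodd : Odd n := by
    rw [← Nat.not_even_iff_odd]
    intro hev
    have h2 : 2 ∣ Nat.gcd n 6 := Nat.dvd_gcd hev.two_dvd (by norm_num)
    rw [hn6] at h2
    omega
  have hHA : Height.mulHeight ![x, y, z] ≤ (((X ^ (A + 1) : ℕ) : ℝ)) := by
    rw [hY]
    exact hH.trans (pow_le_pow_right₀ hX1 (Nat.le_succ A))
  obtain ⟨Y, hYd⟩ : ∃ Y : ℕ, Y = X ^ (A + 1) := ⟨_, rfl⟩
  rw [← hYd] at hHA
  have hY1 : (1 : ℝ) ≤ Y := by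
    rw [hYd, hY]
    exact one_le_pow₀ hX1
  -- the exponent is not large
  have hnY : (n : ℝ) ≤ (Y : ℝ) ^ δ := by
    by_contra hcon
    push Not at hcon
    rcases Pool.Agent.W7.FH.quad_final hK n hn5 hn6 x y z heq hx hy hz with h | ⟨-, h, -⟩
    · exact htriv h
    · have h1 : (Y : ℝ) ≤ (n : ℝ) ^ ⌈1 / δ⌉₊ := by
        have hn1' : (1 : ℝ) ≤ n := by exact_mod_cast (by omega : 1 ≤ n)
        calc (Y : ℝ) = ((Y : ℝ) ^ δ) ^ (1 / δ) := by
              rw [← Real.rpow_mul (by positivity), mul_one_div_cancel hδ.ne', Real.rpow_one]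
          _ ≤ (n : ℝ) ^ (1 / δ) := Real.rpow_le_rpow (by positivity) hcon.le (by positivity)
          _ ≤ (n : ℝ) ^ ((⌈1 / δ⌉₊ : ℕ) : ℝ) :=
              Real.rpow_le_rpow_of_exponent_le hn1' (Nat.le_ceil _)
          _ = (n : ℝ) ^ ⌈1 / δ⌉₊ := Real.rpow_natCast _ _
      exact absurd (h.trans (hHA.trans h1)) (not_le.2 (hR1 n hn1))
  have hle : ∀ t : K, (t = x ∨ t = y) → Height.mulHeight₁ (t / z) ≤
      (Y : ℝ) ^ Module.finrank ℚ K := by
    intro t ht
    rw [Height.mulHeight₁_div_eq_mulHeight, hK]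
    have h1 : Height.mulHeight ![t, z] ≤ Height.mulHeight ![x, y, z] := by
      rcases ht with rfl | rfl
      · have h2 := Height.mulHeight_comp_le (![0, 2] : Fin 2 → Fin 3) ![t, y, z]
        have h3 : (![t, y, z] : Fin 3 → K) ∘ (![0, 2] : Fin 2 → Fin 3) = ![t, z] := by
          funext i
          fin_cases i <;> rfl
        rwa [h3] at h2
      · have h2 := Height.mulHeight_comp_le (![1, 2] : Fin 2 → Fin 3) ![x, t, z]
        have h3 : (![x, t, z] : Fin 3 → K) ∘ (![1, 2] : Fin 2 → Fin 3) = ![t, z] := by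
          funext i
          fin_cases i <;> rfl
        rwa [h3] at h2
    refine (h1.trans hHA).trans ?_
    nlinarith
  have hYδ : (1 : ℝ) ≤ (Y : ℝ) ^ δ := Real.one_le_rpow hY1 hδ.le
  have hσz : σ z ≠ 0 := (map_ne_zero σ).2 hz
  have hW' : W = Submodule.span ℂ {![σ (x / z), σ (y / z), -σ 1]} := by
    have h1 : (![σ x, σ y, -σ z] : Fin 3 → ℂ) = σ z • ![σ (x / z), σ (y / z), -σ 1] := by
      funext i
      fin_cases i
      · simp [map_div₀, mul_div_cancel₀ _ hσz]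
      · simp [map_div₀, mul_div_cancel₀ _ hσz]
      · simp
    rw [hW, h1]
    exact Submodule.span_singleton_smul_eq (IsUnit.mk0 _ hσz) _
  rw [hF, ← hYd]
  refine ⟨⟨σ (x / z), σ (y / z), -σ 1, ⟨K, inferInstance, inferInstance, σ, ![x / z, y / z],
    ![1, 0], ![0, 1], -1, n, hK.le, hn0, hnY, ?_, ?_, ?_, neg_ne_zero.2 one_ne_zero, ?_, ?_,
    (map_neg σ 1).symm, ?_⟩, hW'⟩, hD, hD1, K, inferInstance, inferInstance, hK, hs, σ, _, _, 1,
    one_ne_zero, ?_, hW'⟩
  · rw [Fin.forall_fin_two]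
    simp only [Matrix.cons_val_zero, Matrix.cons_val_one, Int.cast_one, Int.cast_zero, abs_one,
      abs_zero]
    exact ⟨hYδ, by linarith⟩
  · rw [Fin.forall_fin_two]
    simp only [Matrix.cons_val_zero, Matrix.cons_val_one, Int.cast_one, Int.cast_zero, abs_one,
      abs_zero]
    exact ⟨by linarith, hYδ⟩
  · rw [Fin.forall_fin_two]
    exact ⟨⟨div_ne_zero hx hz, hle x (Or.inl rfl)⟩, ⟨div_ne_zero hy hz, hle y (Or.inr rfl)⟩⟩
  · rw [Fin.prod_univ_two]
    simp
  · rw [Fin.prod_univ_two]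
    simp
  · rw [Fin.prod_univ_two, Fin.prod_univ_two]
    simp only [Matrix.cons_val_zero, Matrix.cons_val_one, zpow_one, zpow_zero, mul_one, one_mul]
    rw [hodd.neg_pow, one_pow, div_pow, div_pow, ← add_div, heq, div_self (pow_ne_zero _ hz)]
    ring
  · rintro ⟨r, t, h1, h2⟩
    apply hr
    refine ⟨r, t, ?_, ?_⟩
    · rw [mul_one, div_eq_iff hz] at h1
      exact h1
    · rw [mul_one, div_eq_iff hz] at h2
      exact h2

theorem result :
    -- (1) all solutions of polynomial height, for all exponents `n ≥ R` prime to six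
    (∀ (A : ℕ) (ε : ℝ), 0 < ε → ∃ R : ℕ, ∀ X : ℕ, 1 ≤ X →
      {W | ∃ D, Small A R X D W}.Finite ∧
      (({W | ∃ D, Small A R X D W}.ncard : ℕ) : ℝ) ≤ (X : ℝ) ^ ε ∧
      {D : ℤ | ∃ W, Small A R X D W}.Finite ∧
      (({D : ℤ | ∃ W, Small A R X D W}.ncard : ℕ) : ℝ) ≤ (X : ℝ) ^ ε) ∧
    -- (2) one exceptional set
    (∀ (A : ℕ) (ε : ℝ), 0 < ε → ∃ (R : ℕ) (E : Set ℤ),
      (∀ X : ℕ, 1 ≤ X → (({D ∈ E | |D| ≤ X}.ncard : ℕ) : ℝ) ≤ (X : ℝ) ^ ε) ∧
      ∀ D : ℤ, Squarefree D → D ≠ 1 → D ∉ E →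
        ∀ (K : Type) [Field K] [NumberField K], Module.finrank ℚ K = 2 →
        (∃ s : K, s ^ 2 = D) → ∀ (n : ℕ) (x y z : K), R ≤ n → Nat.Coprime n 6 →
        x ≠ 0 → y ≠ 0 → z ≠ 0 → x ^ n + y ^ n = z ^ n →
        ¬ (∃ r t : ℚ, x = r * z ∧ y = t * z) →
        ¬ (∃ ζ : K, IsPrimitiveRoot ζ 6 ∧ y = x * ζ ^ 2 ∧ z = x * ζ) →
        (|D| : ℝ) ^ A < Height.mulHeight ![x, y, z]) ∧
    -- (3) solutions of exponential height
    (∀ (P : ℕ) (ε : ℝ), 0 < ε → ∃ (R : ℕ) (δ : ℝ), 0 < δ ∧ ∀ X : ℕ, 1 ≤ X →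
      {D : ℤ | Structured P R δ X D}.Finite ∧
      (({D : ℤ | Structured P R δ X D}.ncard : ℕ) : ℝ) ≤ (X : ℝ) ^ ε) := by
  refine ⟨part1', fun A ε hε => ?_, part3⟩
  obtain ⟨R, H⟩ := part1' A ε hε
  refine ⟨R, {D | ∃ W, Small A R D.natAbs D W}, fun X hX => ?_, ?_⟩
  · obtain ⟨-, -, hfin, hcard⟩ := H X hX
    refine le_trans ?_ hcard
    have hsub : {D ∈ {D : ℤ | ∃ W, Small A R D.natAbs D W} | |D| ≤ X} ⊆
        {D : ℤ | ∃ W, Small A R X D W} := by
      rintro D ⟨⟨W, hD, hD1, K, h1, h2, hK, hs, σ, n, x, y, z, hn, hn6, hx, hy, hz, heq, hH, hr,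
        htriv, hW⟩, hDX⟩
      refine ⟨W, hD, hD1, K, h1, h2, hK, hs, σ, n, x, y, z, hn, hn6, hx, hy, hz, heq, hH.trans ?_,
        hr, htriv, hW⟩
      refine pow_le_pow_left₀ (by positivity) ?_ _
      have h3 : (D.natAbs : ℤ) ≤ X := by rw [Int.natCast_natAbs]; exact hDX
      exact_mod_cast h3
    exact_mod_cast Set.ncard_le_ncard hsub hfin
  · intro D hD hD1 hDE K _ _ hK hs n x y z hn hn6 hx hy hz heq hr htriv
    by_contra hcon
    push Not at hcon
    obtain ⟨σ⟩ := embed K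
    refine hDE ⟨_, hD, hD1, K, inferInstance, inferInstance, hK, hs, σ, n, x, y, z, hn, hn6, hx,
      hy, hz, heq, hcon.trans (le_of_eq ?_), hr, htriv, rfl⟩
    congr 1
    rw [Nat.cast_natAbs]
    push_cast
    rfl

end Pool.Agent.Results.MP_50a406_nt.AlmostAllQuadraticFields
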