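import Pool.Agent.H95F.Quad

/-!
# The first case over quadratic fields: the criterion with an auxiliary prime

Let `p ≥ 7` be a prime.

(1) Let `K` be a quadratic field, `l ≠ p` a prime such that `l ^ (p - 1)` is not congruent to `1`
modulo `p ^ 2`, and let `n` be divisible by `p`. Suppose that for all primes `P` of `K` above `l`, with
`q` elements in the residue field, `p` does not divide the quotient of `q - 1` by its greatest common
divisor with `n / p`, and `1 + u ^ n = v ^ n` has no solution with nonzero `u, v` modulo `P`; and that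
`n` is even, or there is only one prime above `l`, or `p` does not divide the Bernoulli number with
index `p - 3`, or `- 15` times the discriminant is not a nonzero square modulo `p`. Then the first case
of Fermat's Last Theorem holds over `K` for the exponent `n`.

(2) In particular it holds for all exponents divisible by `2 p` if three (or five) is not inert in `K`
and `3 ^ (p - 1)` (or `5 ^ (p - 1)`) is not `1` modulo `p ^ 2`.

Over quadratic fields Fermat's Last Theorem is known for the exponents larger than four which are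
divisible by `4` (Aigner, Faddeev), by `6` or `9` (Aigner) or by `5, 7, 11` (Gross and Rohrlich), and
the exponents divisible by `3` are treated in `MultiplesOfThree` (same problem), so the new exponents
in (2) are those which have only prime factors `≥ 13` besides one factor `2`.

Proof. (1) Let `n = k p`, `u = z ^ k`, `v = y ^ k` (and `± y ^ (k / 2)`, `z ^ (k / 2)` if `k` is even).
The norm `f (ζ) = A - r ζ + B ζ ^ 2` of `u - ζ v` to the field of `p`-th roots of unity is a rational
number times the `p`-th power of an ideal. Modulo a prime above `l` of the normal closure exactly one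
of the conjugates of `x, y, z` vanishes and the difference or sum of the `k`-th powers of the others
vanishes as well; so `f` is, up to a unit and a power of `T`, equal to its reversed polynomial, and
comparing the root of unity in the Stickelberger relation for `f (ζ)` modulo `l` and modulo
`(1 - ζ) ^ 2` gives `2 (A - B) = (β - δ) (A + B - r)` modulo `p`, where `α, β, δ` with `α + β + δ = 2` are
the numbers of embeddings for which `x, y, z` vanish. In the even case the relations for both signs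
and both pairs contradict `(A + B) ^ 2 - r ^ 2 = D ^ 2`. In the odd case they give `A : B : D = 3 : 2 : 2`
up to order, and only if `l` splits; then `r ^ 2 - 4 A B`, a square times the discriminant, is `- 15`
times a square, and the relation modulo `(1 - ζ) ^ 4` gives that `p` divides the Bernoulli number.
(2) Modulo `3` and `5` the even powers are `± 1`.
-/

set_option autoImplicit false

namespace Pool.Agent.Results.MP_50a406_nt.AuxiliaryPrime

open NumberField IsDedekindDomain

/-- The first case of Fermat's Last Theorem over `K` for the exponent `n`, with respect to `p`: for all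
nonzero `x, y, z` in `K` with `x ^ n + y ^ n = z ^ n` there is a prime of `K` above `p` at which the
valuations of `x, y, z` are not all equal. -/
def FirstCase (K : Type) [Field K] [NumberField K] (p n : ℕ) : Prop :=
  ∀ x y z : K, x ≠ 0 → y ≠ 0 → z ≠ 0 → x ^ n + y ^ n = z ^ n →
    ∃ v : HeightOneSpectrum (𝓞 K), ((p : ℕ) : 𝓞 K) ∈ v.asIdeal ∧
      ¬ (v.valuation K x = v.valuation K y ∧ v.valuation K y = v.valuation K z)

theorem crit (K : Type) [Field K] [NumberField K] (p l n : ℕ) (hK : Module.finrank ℚ K = 2)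
    (hp : p.Prime) (h7 : 7 ≤ p) (hl : l.Prime) (hlp : l ≠ p)
    (hW : ¬ p ^ 2 ∣ l ^ (p - 1) - 1) (hn : p ∣ n)
    (hloc : ∀ P : Ideal (𝓞 K), P.IsPrime → ((l : ℕ) : 𝓞 K) ∈ P →
      ¬ p ∣ (Nat.card (𝓞 K ⧸ P) - 1) / Nat.gcd (Nat.card (𝓞 K ⧸ P) - 1) (n / p) ∧
      ∀ u v : 𝓞 K, u ∉ P → v ∉ P → 1 + u ^ n - v ^ n ∉ P)
    (halt : Even n ∨
      (∀ P P' : Ideal (𝓞 K), P.IsPrime → P'.IsPrime →
        ((l : ℕ) : 𝓞 K) ∈ P → ((l : ℕ) : 𝓞 K) ∈ P' → P = P') ∨
      ¬ (p : ℤ) ∣ (bernoulli (p - 3)).num ∨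
      ¬ ∃ s : ZMod p, s ≠ 0 ∧ s ^ 2 = -15 * (NumberField.discr K : ZMod p)) :
    FirstCase K p n := by
  intro x y z hx hy hz h
  by_contra hcon
  push Not at hcon
  obtain ⟨k, rfl⟩ := hn
  have hk : k ≠ 0 := by
    rintro rfl
    rw [mul_zero, pow_zero, pow_zero, pow_zero] at h
    norm_num at h
  rw [Nat.mul_div_cancel_left k hp.pos] at hloc
  rw [mul_comm p k] at h hloc
  have hodd : Odd p := hp.odd_of_ne_two (by omega)
  refine H95F.mainQL hp h7 hl hlp hW hK hk hloc ?_ hx hy hz h fun v hv => hcon v hv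
  rcases halt with h1 | h1 | h1 | h1
  · left
    rcases Nat.even_mul.1 h1 with h2 | h2
    · exact absurd h2 (Nat.not_even_iff_odd.2 hodd)
    · exact h2
  · exact Or.inr (Or.inl h1)
  · refine Or.inr (Or.inr (Or.inl fun hk => h1 ?_))
    unfold Y546.WQ.irr at hk
    exact (Finset.mem_filter.1 hk).2.2.2.2
  · exact Or.inr (Or.inr (Or.inr h1))

/-- residue fields of `l` elements, `l = 3, 5`: even powers are `± 1` -/
theorem loc35 {K : Type} [Field K] [NumberField K] {l n : ℕ} (hl : l = 3 ∨ l = 5) (h2 : 2 ∣ n)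
    (P : Ideal (𝓞 K)) (hP : P.IsPrime) (hlP : ((l : ℕ) : 𝓞 K) ∈ P)
    (hc : Nat.card (𝓞 K ⧸ P) = l) (u v : 𝓞 K) (hu : u ∉ P) (hv : v ∉ P) :
    1 + u ^ n - v ^ n ∉ P := by
  have hl0 : l ≠ 0 := by rcases hl with rfl | rfl <;> norm_num
  have hP0 := H95F.ne_bot_of_mem hl0 hlP
  obtain ⟨k, rfl⟩ := h2
  -- the squares of the powers are `1`
  have key : ∀ w : 𝓞 K, w ∉ P → w ^ (2 * k) - 1 ∈ P ∨ w ^ (2 * k) + 1 ∈ P := by
    intro w hw
    have h4 : (l - 1) ∣ 2 * k * 2 := by
      rcases hl with rfl | rfl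
      · exact ⟨2 * k, by ring⟩
      · exact ⟨k, by ring⟩
    have h1 := H95F.pow_sub_one_mem hP hP0 hw (j := 2 * k * 2) (by rw [hc]; exact h4)
    have h2 : w ^ (2 * k * 2) - 1 = (w ^ (2 * k) - 1) * (w ^ (2 * k) + 1) := by
      rw [pow_mul]
      ring
    rw [h2] at h1
    exact hP.mem_or_mem h1
  have hun : ∀ r : ℕ, r.Coprime l → ((r : ℕ) : 𝓞 K) ∉ P := by
    intro r hr hm
    have h1 : (1 : 𝓞 K) ∈ P := by
      have h2 := (Nat.isCoprime_iff_coprime.2 hr)
      obtain ⟨a, b, hab⟩ := h2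
      have h3 : (1 : 𝓞 K) = (a : 𝓞 K) * r + (b : 𝓞 K) * l := by exact_mod_cast hab.symm
      rw [h3]
      exact P.add_mem (P.mul_mem_left _ hm) (P.mul_mem_left _ hlP)
    exact hP.ne_top ((Ideal.eq_top_iff_one _).2 h1)
  intro hm
  rcases key u hu with a | a <;> rcases key v hv with b | b
  · -- `1 + 1 - 1`
    apply hun 1 (by simp)
    have e := P.add_mem (P.sub_mem hm a) b
    have e1 : 1 + u ^ (2 * k) - v ^ (2 * k) - (u ^ (2 * k) - 1) + (v ^ (2 * k) - 1) = 1 := by ring
    rw [e1] at e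
    exact_mod_cast e
  · -- `1 + 1 + 1`
    rcases hl with rfl | rfl
    · -- modulo three even powers are `1`
      have c := H95F.pow_sub_one_mem hP hP0 hv (j := 2 * k) (by rw [hc]; exact ⟨k, rfl⟩)
      apply hun 2 (by decide)
      have e := P.sub_mem b c
      have e1 : v ^ (2 * k) + 1 - (v ^ (2 * k) - 1) = 2 := by ring
      rw [e1] at e
      exact_mod_cast e
    · apply hun 3 (by decide)
      have e := P.add_mem (P.sub_mem hm a) b
      have e1 : 1 + u ^ (2 * k) - v ^ (2 * k) - (u ^ (2 * k) - 1) + (v ^ (2 * k) + 1) = 3 := by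
        ring
      rw [e1] at e
      exact_mod_cast e
  · -- `1 - 1 - 1`
    apply hun 1 (by simp)
    have e := P.sub_mem (P.sub_mem a hm) b
    have e1 : u ^ (2 * k) + 1 - (1 + u ^ (2 * k) - v ^ (2 * k)) - (v ^ (2 * k) - 1) = 1 := by ring
    rw [e1] at e
    exact_mod_cast e
  · -- `1 - 1 + 1`
    apply hun 1 (by simp)
    have e := P.add_mem (P.sub_mem hm a) b
    have e1 : 1 + u ^ (2 * k) - v ^ (2 * k) - (u ^ (2 * k) + 1) + (v ^ (2 * k) + 1) = 1 := by ring
    rw [e1] at e
    exact_mod_cast e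

theorem result :
    (∀ (K : Type) [Field K] [NumberField K] (p l n : ℕ), Module.finrank ℚ K = 2 →
      p.Prime → 7 ≤ p → l.Prime → l ≠ p → ¬ p ^ 2 ∣ l ^ (p - 1) - 1 → p ∣ n →
      (∀ P : Ideal (𝓞 K), P.IsPrime → ((l : ℕ) : 𝓞 K) ∈ P →
        ¬ p ∣ (Nat.card (𝓞 K ⧸ P) - 1) / Nat.gcd (Nat.card (𝓞 K ⧸ P) - 1) (n / p) ∧
        ∀ u v : 𝓞 K, u ∉ P → v ∉ P → 1 + u ^ n - v ^ n ∉ P) →
      (Even n ∨
        (∀ P P' : Ideal (𝓞 K), P.IsPrime → P'.IsPrime →
          ((l : ℕ) : 𝓞 K) ∈ P → ((l : ℕ) : 𝓞 K) ∈ P' → P = P') ∨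
        ¬ (p : ℤ) ∣ (bernoulli (p - 3)).num ∨
        ¬ ∃ s : ZMod p, s ≠ 0 ∧ s ^ 2 = -15 * (NumberField.discr K : ZMod p)) →
      FirstCase K p n) ∧
    (∀ (K : Type) [Field K] [NumberField K] (p l n : ℕ), Module.finrank ℚ K = 2 →
      p.Prime → 7 ≤ p → (l = 3 ∨ l = 5) → ¬ p ^ 2 ∣ l ^ (p - 1) - 1 →
      (∀ P : Ideal (𝓞 K), P.IsPrime → ((l : ℕ) : 𝓞 K) ∈ P → Nat.card (𝓞 K ⧸ P) = l) →
      2 * p ∣ n → FirstCase K p n) := by
  refine ⟨fun K _ _ p l n hK hp h7 hl hlp hW hn hloc halt =>
    crit K p l n hK hp h7 hl hlp hW hn hloc halt, ?_⟩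
  · intro K _ _ p l n hK hp h7 hl hW hcard hn
    have hlpr : l.Prime := by rcases hl with rfl | rfl <;> norm_num
    have hlp : l ≠ p := by rcases hl with rfl | rfl <;> omega
    have h2n : 2 ∣ n := (Dvd.intro _ rfl).trans hn
    refine crit K p l n hK hp h7 hlpr hlp hW ((Dvd.intro_left _ rfl).trans hn) ?_
      (Or.inl (even_iff_two_dvd.2 h2n))
    intro P hP hlP
    have hc := hcard P hP hlP
    refine ⟨fun hd => ?_, fun u v hu hv => loc35 hl h2n P hP hlP hc u v hu hv⟩
    have h1 := Nat.div_le_self (Nat.card (𝓞 K ⧸ P) - 1)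
      (Nat.gcd (Nat.card (𝓞 K ⧸ P) - 1) (n / p))
    have h2 : 0 < (Nat.card (𝓞 K ⧸ P) - 1) / Nat.gcd (Nat.card (𝓞 K ⧸ P) - 1) (n / p) := by
      apply Nat.div_pos (Nat.gcd_le_left _ _) (Nat.gcd_pos_of_pos_left _ _)
      all_goals rw [hc]; rcases hl with rfl | rfl <;> norm_num
    have h3 := Nat.le_of_dvd h2 hd
    rw [hc] at h1 h3
    rcases hl with rfl | rfl <;> omega

end Pool.Agent.Results.MP_50a406_nt.AuxiliaryPrime
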