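import Pool.Agent.H47T.Asm
import Pool.Agent.H47T.EVA
import Pool.Agent.H47T.LOC2
import Pool.Agent.H47T.LOCP
import Pool.Agent.H47T.ALLU
import Pool.Agent.H47T.QTWO
import Pool.Agent.H47T.NRM
import Pool.Agent.H47T.DIV
import Pool.Agent.H47T.TWO
import Pool.Agent.H47T.SQP
import Pool.Agent.H47T.AP
import Pool.Agent.H47T.SQRT

/-!
# Even exponents over every quadratic field

Let `K = Q(√d)`, `d` squarefree, be any quadratic field and `p ≥ 5` a prime. Suppose that the first
case of Fermat's Last Theorem over `K` fails for some exponent divisible by `2 p`. Then there is a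
factorization `d = c c'` with `c ≡ p` modulo `8`, `c > 0` if `d > 0`, and `c` or `c'` is a nonzero square
modulo `p`. There is no condition on the class number and units of `K`, on Bernoulli numbers or of
Wieferich type, and no condition on the decomposition of `2` and `p` in `K`.

For instance the first case holds for all exponents divisible by `2 p`
* if `d > 0`, all odd prime factors of `d` are `1` modulo `8` and `p` is not `1` modulo `8`;
* if all odd prime factors of `d` (positive or negative) are `1` or `7` modulo `8` and `p` is `3` or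
  `5` modulo `8`;
* if `d > 0`, all odd prime factors of `d` are `1` modulo `4` and `p` is `3` modulo `4`;
* for every quadratic field `K` without exception for all primes `p ≥ 5` in a residue class `a`
  modulo `m` that depends only on `K`, so for a positive proportion of all primes.

Proof. Let `x ^ (2 p) + y ^ (2 p) = z ^ (2 p)` in the first case and let `P` be a prime above two. As
`K_P` is unramified over `ℚ_2` or has the residue field with two elements, one of `x, y, z` is more
divisible by `P` than the others. Write the equation as `X ^ p + Y ^ p = Z ^ p` with `X, Y, Z` plus or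
minus the squares and `Z` the more divisible one. Then `A = (X ^ p + Y ^ p) / (X + Y)` is positive in
all real embeddings, all its valuations are even, `A = p X ^ (p - 1) (1 + small)` at `P` and
`A = (X + Y) ^ (p - 1) (1 + small)` at the primes above `p`. So the norm of `A` is the square of a
rational number `s`, and `A (Tr A + 2 s) = (A + s) ^ 2`: `A` is an integer `c` times a square in
`K`. The properties of `A` show that `c` divides `d` and the rest.
-/

set_option autoImplicit false

namespace Pool.Agent.Results.MP_50a406_nt.EvenEveryField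

open NumberField IsDedekindDomain Pool.Agent.H47T

/-- The first case of Fermat's Last Theorem holds over `K` for all exponents divisible by `2 p`. -/
def FirstCase (K : Type) [Field K] [NumberField K] (p : ℕ) : Prop :=
  ∀ n : ℕ, 2 * p ∣ n → ∀ x y z : K, x ^ n + y ^ n = z ^ n → x ≠ 0 → y ≠ 0 → z ≠ 0 →
    ∃ v : HeightOneSpectrum (𝓞 K), ((p : ℕ) : 𝓞 K) ∈ v.asIdeal ∧
      ¬ (v.valuation K x = v.valuation K y ∧ v.valuation K y = v.valuation K z)

theorem first {K : Type} [Field K] [NumberField K] (hK : Module.finrank ℚ K = 2) {d : ℤ} {r : K}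
    (hd : Squarefree d) (hd1 : d ≠ 1) (hr : r ^ 2 = (d : K)) {p : ℕ} (hp : p.Prime) (h5 : 5 ≤ p)
    (hbad : ¬ Bad d p) : FirstCase K p := by
  intro n hn x y z h hx hy hz
  by_contra hcon
  push Not at hcon
  obtain ⟨k, rfl⟩ := hn
  have hF : (x ^ k) ^ (2 * p) + (y ^ k) ^ (2 * p) = (z ^ k) ^ (2 * p) := by
    rw [← pow_mul, ← pow_mul, ← pow_mul, mul_comm k (2 * p), h]
  refine mainTQ mainEVA mainLOC2 mainLOCP mainPOS mainALLU mainQTWO mainNRM mainDIV mainTWO
    mainSQP hK hd hd1 hr hp h5 hbad (pow_ne_zero k hx) (pow_ne_zero k hy) (pow_ne_zero k hz) hF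
    fun v hv => ?_
  obtain ⟨h1, h2⟩ := hcon v hv
  rw [map_pow, map_pow, map_pow, h1, h2]
  exact ⟨rfl, rfl⟩

theorem result (K : Type) [Field K] [NumberField K] (hK : Module.finrank ℚ K = 2) :
    -- the criterion
    (∀ (d : ℤ) (r : K), Squarefree d → d ≠ 1 → r ^ 2 = (d : K) → ∀ p : ℕ, p.Prime → 5 ≤ p →
      (¬ ∃ c c' : ℤ, c * c' = d ∧ c % 8 = p % 8 ∧ (0 < d → 0 < c) ∧
        ∃ s : ℤ, ¬ (p : ℤ) ∣ s ∧ ((p : ℤ) ∣ s ^ 2 - c ∨ (p : ℤ) ∣ s ^ 2 - c')) →
      FirstCase K p) ∧
    -- a residue class of primes for every quadratic field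
    ∃ m a : ℕ, 0 < m ∧ a.Coprime m ∧ ∀ p : ℕ, p.Prime → 5 ≤ p → p % m = a % m →
      FirstCase K p := by
  refine ⟨fun d r hd hd1 hr p hp h5 hbad => first hK hd hd1 hr hp h5 hbad, ?_⟩
  obtain ⟨d, r, hd, hd1, hr⟩ := mainSQRT K hK
  obtain ⟨m, a, hm, ha, hap⟩ := mainAP d hd
  exact ⟨m, a, hm, ha, fun p hp h5 hpm => first hK hd hd1 hr hp h5 (hap p hp hpm)⟩

end Pool.Agent.Results.MP_50a406_nt.EvenEveryField
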