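import Pool.Agent.H47C.Asm4
import Pool.Agent.H47C.RED1
import Pool.Agent.H47C.ROOT
import Pool.Agent.H47C.RED4
import Pool.Agent.H47C.FLTR
import Pool.Agent.H47C.KCONG
import Pool.Agent.H47C.VALQ
import Pool.Agent.H47C.LAM
import Pool.Agent.H47C.VQ
import Pool.Agent.H47C.PTH
import Pool.Agent.H47C.HUP
import Pool.Agent.H47C.INIT
import Pool.Agent.H47C.CJ
import Pool.Agent.H47C.CONJ3
import Pool.Agent.H47C.EIS
import Pool.Agent.H47C.PF
import Pool.Agent.H47C.CASEC
import Pool.Agent.H47N.B2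

/-!
# Fermat's equation with an exponent divisible by `3 p` over all quadratic fields

**Theorem.** Let `p ≥ 5` be a prime, let `K` be any quadratic field, `3 p ∣ n` and suppose that
`x ^ n + y ^ n = z ^ n` with `x, y, z ∈ K`, `x y z ≠ 0`. Then `p` is irregular, and moreover there are nonzero
integers with `a ^ p + b ^ p = d ^ p`, or `3` ramifies in `K` and there are nonzero integers with
`α ^ p - d ^ p = 3 ^ m β ^ p`, `h ^ p - d ^ (2 p) = 3 ^ (m + 1) (α β) ^ p`, `p = 2 m + 1`.

So there is no solution if `p` is regular, for all quadratic fields; and by the theorems of Wiles and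
Ribet (on `a ^ p + b ^ p = d ^ p` and `α ^ p - d ^ p = 3 ^ m β ^ p`) there is none for any `p`.

Proof. (1) The cubic. `(u, v) = ((x / z) ^ p, (y / z) ^ p)` is a point over `K` of the cubic Fermat
curve, whose group of rational points has order three. The rational line through `(u, v)` and its
conjugate meets the cubic in one of these three points, so `u + v` or `(1 - v) / u` or
`(1 - u) / v` is rational. After a permutation of `x, y, -z`: `α ^ p + β ^ p = c ∈ ℚ` and
`α ^ (3 p) + β ^ (3 p) = 1`, so `c ^ 3 - 3 c t ^ p = 1`, `t = α β`, and `t ∈ ℚ`.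
(2) Arithmetic in `ℚ`. `c = a / b` in lowest terms and `t ^ p = (a ^ 3 - b ^ 3) / (3 a b ^ 2)` give: a nonzero
solution of Fermat's equation of exponent `p` in integers, or `3 ∣ b`,
`a = α ^ p`, `b = 3 ^ m β ^ p`, `p = 2 m + 1`, `a - b = d ^ p`, `a ^ 2 + a b + b ^ 2 = h ^ p`, so
`α ^ p - d ^ p = 3 ^ m β ^ p` and `h ^ p - d ^ (2 p) = 3 ^ (m + 1) (α β) ^ p`. The second case is impossible if some
prime above `3` is unramified: there `c` has a pole of order `k ≥ 1` and `t ^ p = u v`, `c = u + v`, one of order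
`2 k + 1`.
(3) Let `p` be regular. Kummer's theorem excludes the first case. In the second case, if `p` divides
none of `α, β, d` then Kummer's congruence, for both equations, gives `α ≡ -d` and
`h ≡ - d ^ 2` modulo `p`, which is a contradiction.
(4) If `p` divides `β`, `α` or `d` then the first equation, the second equation or the equation
`- d ^ p = γ ^ p + γ' ^ p` in conjugate Eisenstein integers is the start of a descent in the maximal real
subfield of `F = ℚ(ζ_p)`: from a real `x ∈ F` with all valuations of `x ^ p + 1` outside `3 p`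
divisible by `p`, integral at `3`, and `v (x ^ p + 1) = m p`, `m ≥ 4`, at the prime above `p`, one gets
`x'` with the same properties and `m' = 2 (m - 1)`, where `- x'` is the real `p`-th root of
`r = (x + ζ ^ i) (x + ζ ^ (-i)) λ_k / ((x + ζ ^ k) (x + ζ ^ (-k)) λ_i)`, `λ_i = (1 - ζ ^ i) (1 - ζ ^ (-i))`,
`1 - r = (x + 1) ^ 2 (λ_i - λ_k) / ((x + ζ ^ k) (x + ζ ^ (-k)) λ_i)`. (Regularity and Kummer's lemma on units
show that `r` is a `p`-th power. The indices `i, k` are chosen so that `r` is a unit above `3`; this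
is possible because there are at most `(p - 1) / 3` primes above `3`.) The heights of the `x` are
bounded, so by Northcott's theorem there are only finitely many, but `m → ∞`.
-/

set_option autoImplicit false

namespace Pool.Agent.Results.MP_50a406_nt.MultiplesOfThree

open Pool.Agent.H47C NumberField IsDedekindDomain

/-- for regular `p` there is no solution. -/
theorem regular (p : ℕ) (hp : p.Prime) (h5 : 5 ≤ p)
    (hreg : (NumberField.classNumber (CyclotomicField p ℚ)).Coprime p)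
    (K : Type) [Field K] [NumberField K] (hK : Module.finrank ℚ K = 2) (n : ℕ) (hn : 3 * p ∣ n)
    (x y z : K) (h : x ^ n + y ^ n = z ^ n) : x * y * z = 0 := by
  have : Fact p.Prime := ⟨hp⟩
  by_contra hne
  have hz : z ≠ 0 := right_ne_zero_of_mul hne
  have hxy : x * y ≠ 0 := left_ne_zero_of_mul hne
  have hx : x ≠ 0 := left_ne_zero_of_mul hxy
  have hy : y ≠ 0 := right_ne_zero_of_mul hxy
  obtain ⟨k, rfl⟩ := hn
  refine mainCUB4 mainRED1 mainROOT mainRED4 hK hp h5 (mainFLTR p h5 hreg) ?_ (x := x ^ k)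
    (y := y ^ k) (z := z ^ k) (pow_ne_zero _ hx) (pow_ne_zero _ hy) (pow_ne_zero _ hz) ?_
  · intro α β d g m hm hα hβ hd hg k1 k2 k3 k4 k5 k6
    exact no4 mainCONJ3 mainLAM mainVQ mainPTH mainHUP mainINIT mainVALQ mainKCONG mainCJ mainEIS
      mainPF mainCASEC h5 hreg hm hα hβ hd hg k1 k2 k3 k4 k5 k6
  · rw [← pow_mul, ← pow_mul, ← pow_mul, mul_comm k]
    exact h

/-- Let `p ≥ 5` be a prime, `K` a quadratic field, `n` divisible by `3 p`, and `x ^ n + y ^ n = z ^ n` with
`x, y, z ∈ K`, `x y z ≠ 0`. Then `p` is irregular, and there are nonzero integers with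
`a ^ p + b ^ p = d ^ p`, or `3` ramifies in `K` and there are nonzero integers with
`α ^ p - d ^ p = 3 ^ m β ^ p` and `h ^ p - d ^ (2 p) = 3 ^ (m + 1) (α β) ^ p`, `p = 2 m + 1`. -/
theorem result (p : ℕ) (hp : p.Prime) (h5 : 5 ≤ p)
    (K : Type) [Field K] [NumberField K] (hK : Module.finrank ℚ K = 2) (n : ℕ) (hn : 3 * p ∣ n)
    (x y z : K) (h : x ^ n + y ^ n = z ^ n) (hne : x * y * z ≠ 0) :
    ¬ (NumberField.classNumber (CyclotomicField p ℚ)).Coprime p ∧
    ((∃ a b d : ℤ, a ≠ 0 ∧ b ≠ 0 ∧ d ≠ 0 ∧ a ^ p + b ^ p = d ^ p) ∨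
      ((∀ w : HeightOneSpectrum (𝓞 K), (3 : 𝓞 K) ∈ w.asIdeal → (3 : 𝓞 K) ∈ w.asIdeal ^ 2) ∧
        ∃ (α β d h : ℤ) (m : ℕ), p = 2 * m + 1 ∧ α ≠ 0 ∧ β ≠ 0 ∧ d ≠ 0 ∧ h ≠ 0 ∧
          IsCoprime α d ∧ IsCoprime h d ∧ ¬ (3 : ℤ) ∣ d ∧ ¬ (3 : ℤ) ∣ h ∧
          α ^ p - d ^ p = 3 ^ m * β ^ p ∧ h ^ p - (d ^ 2) ^ p = 3 ^ (m + 1) * (α * β) ^ p)) := by
  refine ⟨fun hreg => hne (regular p hp h5 hreg K hK n hn x y z h), ?_⟩
  have hz : z ≠ 0 := right_ne_zero_of_mul hne
  have hxy : x * y ≠ 0 := left_ne_zero_of_mul hne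
  have hx : x ≠ 0 := left_ne_zero_of_mul hxy
  have hy : y ≠ 0 := right_ne_zero_of_mul hxy
  obtain ⟨k, rfl⟩ := hn
  refine Pool.Agent.H47N.mainB hK hp h5 (x := x ^ k) (y := y ^ k) (z := z ^ k) (pow_ne_zero _ hx)
    (pow_ne_zero _ hy) (pow_ne_zero _ hz) ?_
  rw [← pow_mul, ← pow_mul, ← pow_mul, mul_comm k]
  exact h

end Pool.Agent.Results.MP_50a406_nt.MultiplesOfThree
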